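import Pool.Agent.Q184.NB.Dom

/-!
# KLS for bodies dominated by laws with few functionals and for their marginals

Q1, in the form of the inequality for sets of measure one half, for the laws of all linear images
`L Y` (in particular for all marginals) of random vectors `Y` uniform on a convex body `P ⊂ ℝⁿ` whose
uniform distribution is at most `M` times the law of `T X` outside a subset of `P` of at most
`|P| / 200` of the volume. Here `X` is a random vector in `ℝ^m`, `m` arbitrary, which has a density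
proportional to `∏_{i < N} h_i(⟪v_i, x⟫)`, `N ≤ m + q`, with arbitrary log-concave functions `h_i` on
the line, or is uniform on an affine image `S '' K ⊂ ℝ^m` of a body `K ⊂ ℝ^l`, `l ≤ m + r`, given by
few functionals (class `Section B q p`); and `T` is any affine map of `ℝ^m` onto `ℝⁿ`. The body `P`
itself is arbitrary: it need not be given by few functionals. The constant depends on
`q, r, B, p, M` only.
-/

set_option autoImplicit false

namespace Pool.Agent.Results.MP_6d896a_gt.DominatedBodies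

open MeasureTheory Set
open scoped ENNReal InnerProductSpace

/-- Euclidean space of dimension `n` -/
abbrev Euc (n : ℕ) : Type := EuclideanSpace ℝ (Fin n)

/-- convex body `D = -D`: compact, convex, symmetric, with nonempty interior -/
structure SymmetricBody {k : ℕ} (D : Set (Euc k)) : Prop where
  conv : Convex ℝ D
  comp : IsCompact D
  int : (interior D).Nonempty
  symm : ∀ x ∈ D, -x ∈ D

/-- `a (s₊)^p + b (s₋)^p`, where `a, b ∈ [0, ∞]` and `∞ · 0 = 0` -/
noncomputable def power (p : ℝ) (a b : ℝ≥0∞) (s : ℝ) : ℝ≥0∞ :=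
  a * ENNReal.ofReal (max s 0 ^ p) + b * ENNReal.ofReal (max (-s) 0 ^ p)

/-- `K = {x | ⟪v_i, x⟫ ∈ I_i for all i < N}` with closed intervals `I_i` (which may be unbounded),
`N ≤ m + q`: intersections of `m + q` halfspaces or slabs in `ℝ^m` -/
def Slabs (q : ℕ) {m : ℕ} (K : Set (Euc m)) : Prop :=
  ∃ (N : ℕ) (v : Fin N → Euc m) (I : Fin N → Set ℝ), N ≤ m + q ∧ (∀ i, IsClosed (I i)) ∧
    (∀ i, (I i).OrdConnected) ∧ K = {x | ∀ i, ⟪v i, x⟫_ℝ ∈ I i}

/-- `K = {x | ∑_{i < N} (a_i ⟪v_i, x⟫₊^p + b_i ⟪v_i, x⟫₋^p) ≤ 1}`, `a_i, b_i ∈ [0, ∞]`, `N ≤ m + q` -/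
def Sums (p : ℝ) (q : ℕ) {m : ℕ} (K : Set (Euc m)) : Prop :=
  ∃ (N : ℕ) (v : Fin N → Euc m) (a b : Fin N → ℝ≥0∞), N ≤ m + q ∧
    K = {x | ∑ i, power p (a i) (b i) ⟪v i, x⟫_ℝ ≤ 1}

/-- `K = {x | ∑_{j < k_i} |ℓ_ij(x)|^{e_ij} ≤ 1 for all i < M}`, `e_ij ≥ 2`, `∑ k_i ≤ m + q` -/
def Powers (q : ℕ) {m : ℕ} (K : Set (Euc m)) : Prop :=
  ∃ (M : ℕ) (k : Fin M → ℕ) (e : ∀ i, Fin (k i) → ℝ) (l : ∀ i, Fin (k i) → (Euc m →ₗ[ℝ] ℝ)),
    (∀ i, 1 ≤ k i) ∧ ∑ i, k i ≤ m + q ∧ (∀ i j, 2 ≤ e i j) ∧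
    K = {x | ∀ i, ∑ j, |l i j x| ^ e i j ≤ 1}

/-- `K = {x | Q_i x ∈ D_i for all i < M}` with linear maps `Q_i : ℝ^m → ℝ^{k_i}` and symmetric convex
bodies `D_i`, `k_i ≤ B`, `∑ k_i ≤ m + q` -/
def Blocks (B q : ℕ) {m : ℕ} (K : Set (Euc m)) : Prop :=
  ∃ (M : ℕ) (k : Fin M → ℕ) (Q : ∀ i, Euc m →ₗ[ℝ] Euc (k i)) (D : ∀ i, Set (Euc (k i))),
    (∀ i, k i ≤ B) ∧ ∑ i, k i ≤ m + q ∧ (∀ i, SymmetricBody (D i)) ∧ K = {x | ∀ i, Q i x ∈ D i}

/-- bounded, with nonempty interior, and of one of the four kinds `Slabs`, `Sums`, `Powers`,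
`Blocks`, with at most `q` functionals more than the dimension -/
structure Section (B q : ℕ) (p : ℝ) {m : ℕ} (K : Set (Euc m)) : Prop where
  bdd : Bornology.IsBounded K
  int : (interior K).Nonempty
  rep : Slabs q K ∨ Sums p q K ∨ Powers q K ∨ Blocks B q K

/-- log-concave functions `h ≥ 0` on the line -/
structure LogConcave (h : ℝ → ℝ) : Prop where
  nonneg : ∀ s, 0 ≤ h s
  conc : ∀ x y t : ℝ, 0 < t → t < 1 → h x ^ (1 - t) * h y ^ t ≤ h ((1 - t) * x + t * y)

/-- `∏_{i < N} h_i(⟪v_i, x⟫)` -/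
noncomputable def ridge {m N : ℕ} (v : Fin N → Euc m) (h : Fin N → ℝ → ℝ) (x : Euc m) : ℝ :=
  ∏ i, h i ⟪v i, x⟫_ℝ

/-- the measure on `ℝ^m` with density proportional to `w` and total mass one -/
noncomputable def normalised {m : ℕ} (w : Euc m → ℝ) : Measure (Euc m) :=
  (∫⁻ x, ENNReal.ofReal (w x))⁻¹ • volume.withDensity fun x => ENNReal.ofReal (w x)

/-- the uniform probability measure on `K` -/
noncomputable def unif {n : ℕ} (K : Set (Euc n)) : Measure (Euc n) :=
  (volume K)⁻¹ • volume.restrict K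

/-- `μ` has a density proportional to a product of at most `m + q` log-concave ridge functions (the
integral of a function which is not integrable is zero by convention) -/
def RidgeLaw (q : ℕ) {m : ℕ} (μ : Measure (Euc m)) : Prop :=
  ∃ (N : ℕ) (v : Fin N → Euc m) (h : Fin N → ℝ → ℝ), N ≤ m + q ∧ (∀ i, LogConcave (h i)) ∧
    0 < ∫ x, ridge v h x ∧ μ = normalised (ridge v h)

/-- `μ` is the uniform distribution on an affine image of a body of the class `Section B q p` in a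
space of dimension at most `m + r` -/
def ImageLaw (B q r : ℕ) (p : ℝ) {m : ℕ} (μ : Measure (Euc m)) : Prop :=
  ∃ (l : ℕ) (K : Set (Euc l)) (S : Euc l →ᵃ[ℝ] Euc m), l ≤ m + r ∧ Section B q p K ∧
    Function.Surjective S ∧ μ = unif (S '' K)

/-- the uniform distribution on `P` is at most `M ν` outside a subset of volume at most
`|P| / 200` -/
def Dominated {n : ℕ} (M : ℝ) (P : Set (Euc n)) (ν : Measure (Euc n)) : Prop :=
  ∃ E : Set (Euc n), MeasurableSet E ∧ volume E ≤ volume P / 200 ∧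
    (volume P)⁻¹ • volume.restrict (P \ E) ≤ ENNReal.ofReal M • ν

/-- the boundary measure `μ⁺(S)`, the lower limit of `(μ(S_ε) - μ(S)) / ε` for the open
neighbourhoods `S_ε` of `S` -/
noncomputable def bdry {n : ℕ} (μ : Measure (Euc n)) (S : Set (Euc n)) : ℝ≥0∞ :=
  Filter.liminf (fun ε : ℝ => (μ (Metric.thickening ε S) - μ S) / ENNReal.ofReal ε)
    (nhdsWithin 0 (Set.Ioi 0))

/-- `μ⁺(S) √s ≥ c min(μ S, μ Sᶜ)` for all measurable sets `S` of measure one half and for every bound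
`s` of the variances of the marginals of `μ` in directions of length one -/
def KLSHalf {n : ℕ} (c : ℝ) (μ : Measure (Euc n)) : Prop :=
  ∀ s : ℝ, 0 < s →
    (∀ θ : Euc n, ‖θ‖ = 1 → ProbabilityTheory.variance (fun x => ⟪x, θ⟫_ℝ) μ ≤ s) →
    ∀ S : Set (Euc n), MeasurableSet S → μ S = 1 / 2 →
      ENNReal.ofReal (c / Real.sqrt s) * min (μ S) (μ Sᶜ) ≤ bdry μ S

theorem base_of {B q : ℕ} {p : ℝ} {m : ℕ} {K : Set (Euc m)} (h : Section B q p K) :
    Pool.Agent.Y506.PV.Base q B p K := by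
  refine ⟨h.bdd, h.int, ?_⟩
  rcases h.rep with h | h | h | h
  · obtain ⟨N, v, I, hN, hI1, hI2, hK⟩ := h
    exact Or.inl ⟨N, hN, v, I, hI1, hI2, hK⟩
  · obtain ⟨N, v, a, b, hN, hK⟩ := h
    exact Or.inr (Or.inl ⟨N, hN, v, a, b, hK⟩)
  · obtain ⟨M, k, e, l, hk, hs, he, hK⟩ := h
    refine Or.inr (Or.inr (Or.inl ⟨M, k, hs, hk, e, fun i j =>
      LinearMap.toContinuousLinearMap (l i j), he, ?_⟩))
    rw [hK]
    rfl
  · obtain ⟨M, k, Q, D, hk, hs, hD, hK⟩ := h
    refine Or.inr (Or.inr (Or.inr ⟨M, k, hs, hk, fun i => LinearMap.toContinuousLinearMap (Q i),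
      D, fun i => ⟨(hD i).comp.measurableSet, (hD i).conv, (hD i).comp.isBounded, (hD i).symm,
        (hD i).int⟩, fun i => (hD i).comp.isClosed, ?_⟩))
    rw [hK]
    rfl

/-- the functional inequality for dominated bodies -/
theorem star_dom (q r B : ℕ) (p M : ℝ) (hp : 1 ≤ p) : ∃ c : ℝ, 0 < c ∧
    ∀ (m n : ℕ) (μ : Measure (Euc m)) (T : Euc m →ᵃ[ℝ] Euc n) (P : Set (Euc n)), 1 ≤ n →
    RidgeLaw q μ ∨ ImageLaw B q r p μ → Function.Surjective T → IsCompact P → Convex ℝ P →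
    (interior P).Nonempty → Dominated M P (Measure.map T μ) →
    Pool.Agent.Y506.RG.Star c (Pool.Agent.Y506.PV.ind P) := by
  obtain ⟨κ1, hκ1, G1⟩ := Pool.Agent.Q184.NB.good_ridge q
  obtain ⟨κ2, hκ2, G2⟩ := Pool.Agent.Q184.NB.good_affine q r B p hp
  obtain ⟨c1, hc1, H1⟩ := Pool.Agent.Q184.NB.dom_final κ1 hκ1 M
  obtain ⟨c2, hc2, H2⟩ := Pool.Agent.Q184.NB.dom_final κ2 hκ2 M
  refine ⟨max c1 c2, lt_max_of_lt_left hc1, fun m n μ T P hn hμ hT hPc hPv hPi hdom => ?_⟩
  have hm : 1 ≤ m := by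
    have hl : Function.Surjective T.linear := by
      rwa [AffineMap.linear_surjective_iff]
    have := LinearMap.finrank_le_finrank_of_surjective (f := T.linear) hl
    have h2 : n ≤ m := by simpa using this
    omega
  have hnn : ∀ x, 0 ≤ Pool.Agent.Y506.PV.ind P x :=
    fun x => indicator_nonneg (fun _ _ => zero_le_one) x
  obtain ⟨E, hE, hEv, hle⟩ := hdom
  rcases hμ with h | h
  · obtain ⟨N, v, h, hN, hh, hpos, hμ⟩ := h
    rw [hμ] at hle
    exact Pool.Agent.Y506.RG.Star.mono (le_max_left _ _) hnn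
      (H1 m n _ T P E (G1 m N v h hm hN (fun i => (hh i).nonneg) (fun i => (hh i).conc) hpos) hT
        hPc hPv hPi hE hEv hle)
  · obtain ⟨l, K, S, hl, hK, hS, hμ⟩ := h
    obtain ⟨h1, h2, h3, h4⟩ := G2 m l K S hm hl (base_of hK) hS
    have e := Pool.Agent.Y506.PV.pm_ind (S '' K) h1.measurableSet
    have hu : μ = Pool.Agent.Y506.RG.pm (Pool.Agent.Y506.PV.ind (S '' K)) := by
      rw [e, hμ]
      rfl
    rw [hu] at hle
    exact Pool.Agent.Y506.RG.Star.mono (le_max_right _ _) hnn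
      (H2 m n _ T P E h4 hT hPc hPv hPi hE hEv hle)

theorem images_of {m : ℕ} {K : Set (Euc m)} (hK : IsCompact K) (hi : (interior K).Nonempty)
    {c : ℝ} (hc : 0 < c) (hs : Pool.Agent.Y506.RG.Star c (Pool.Agent.Y506.PV.ind K)) (n : ℕ)
    (L : Euc m →ₗ[ℝ] Euc n) : IsProbabilityMeasure (Measure.map L (unif K)) ∧
      KLSHalf (1 / (4 * c)) (Measure.map L (unif K)) := by
  have hA := Pool.Agent.Y506.PV.adm_ind K hK.measurableSet hK.isBounded
    (Pool.Agent.Y506.PV.vol_pos hi)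
  have h := Pool.Agent.Y506.RG.half_of_star Pool.Agent.Y429.RG.minkm hA c hc hs n L
    (Measure.map L (Pool.Agent.Y506.RG.pm (Pool.Agent.Y506.PV.ind K))) rfl
  rw [Pool.Agent.Y506.PV.pm_ind K hK.measurableSet] at h
  obtain ⟨hp, H⟩ := h
  have hp' : IsProbabilityMeasure (Measure.map L (unif K)) := hp
  refine ⟨hp', fun s hs hvar S hS hS2 => ?_⟩
  refine le_trans ?_ (H s hs hvar S hS2)
  calc _ ≤ ENNReal.ofReal (1 / (4 * c) / Real.sqrt s) * 1 :=
        mul_le_mul_right ((min_le_left _ _).trans prob_le_one) _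
    _ = _ := mul_one _

/-- **KLS for bodies dominated by laws with few functionals, and for their marginals.** For all
`q, r, B, M` and `p ≥ 1` there is a constant `c > 0` such that for all `m, n ≥ 1`, all laws `μ` on `ℝ^m`
of the class `RidgeLaw q` or `ImageLaw B q r p`, all affine maps `T` of `ℝ^m` onto `ℝⁿ`, all convex
bodies `P ⊂ ℝⁿ` whose uniform distribution is at most `M` times the image of `μ` under `T` outside a
subset of volume at most `|P| / 200`, and all linear maps `L : ℝⁿ → ℝ^k`, the law `ν` of `L Y`, `Y`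
uniform on `P`, is a probability measure with `ν⁺(S) √‖A‖ ≥ c min(ν S, ν Sᶜ)` for all measurable `S`
with `ν S = 1/2`, where `A` is the covariance matrix of `ν`. -/
theorem result : ∀ (q r B : ℕ) (p M : ℝ), 1 ≤ p → ∃ c : ℝ, 0 < c ∧
    ∀ (m n : ℕ) (μ : Measure (Euc m)) (T : Euc m →ᵃ[ℝ] Euc n) (P : Set (Euc n)), 1 ≤ n →
    RidgeLaw q μ ∨ ImageLaw B q r p μ → Function.Surjective T → IsCompact P → Convex ℝ P →
    (interior P).Nonempty → Dominated M P (Measure.map T μ) →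
    ∀ (k : ℕ) (L : Euc n →ₗ[ℝ] Euc k) (ν : Measure (Euc k)),
      ν = Measure.map L (unif P) → IsProbabilityMeasure ν ∧ KLSHalf c ν := by
  intro q r B p M hp
  obtain ⟨c, hc, H⟩ := star_dom q r B p M hp
  refine ⟨1 / (4 * c), by positivity, fun m n μ T P hn hμ hT hPc hPv hPi hdom k L ν hν => ?_⟩
  rw [hν]
  exact images_of hPc hPi hc (H m n μ T P hn hμ hT hPc hPv hPi hdom) k L

end Pool.Agent.Results.MP_6d896a_gt.DominatedBodies
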