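import Pool.Agent.Q155.IB.Law
import Pool.Agent.Q155.IB.Cls

/-!
# KLS for all linear images of log-concave measures on systems of indistinguishable particles

The Kannan-Lovasz-Simonovits inequality for the laws of ALL linear images `L X` (in particular all
marginals) of the log-concave random vectors `X = (x_1, …, x_N)`, `x_i ∈ ℝ^d`, whose law does not
change when particles of the same species are permuted. Variance form, equivalent to KLS by E. Milman:
for every linear map `L` of the space of configurations to `ℝ^k`, in any dimension `k`, if all the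
variances `Var ⟪θ, L X⟫`, `‖θ‖ = 1`, are at most `s` then every `C¹` function `f` on `ℝ^k` with
`‖∇ f‖ ≤ 1` has `Var f(L X) ≤ C_{q,d} s`, with `C_{q,d} = C q d⁴ (1 + log q)²` and an absolute constant
`C`, for all `N`.

New compared with `Particles` (starting files), which is the case `L = id`: the laws of `L X` have
no symmetry, and the norm of their covariance matrices is not that of `X` (it can be much smaller than
the norm of the covariance matrix of `X` times the square of the norm of `L`); the isotropic position
of `X` is included.

Method. The covariance operator `Σ` of `X` is positive definite and commutes with the group; its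
square root is a polynomial in `Σ`, so it commutes with the group too, and `Σ^{-1/2} X` is isotropic
and invariant. The variance inequality of the starting module `TH594.KP` for `Σ^{-1/2} X`, applied to
`f ∘ L ∘ Σ^{1/2}`, whose Lipschitz constant is at most `√s`, gives the result.
-/

set_option autoImplicit false

namespace Pool.Agent.Results.MP_6d896a_gt.MarginalsOfParticleMeasures

open MeasureTheory Set
open scoped ENNReal InnerProductSpace

/-- Euclidean space of dimension `n` -/
abbrev Euc (n : ℕ) : Type := EuclideanSpace ℝ (Fin n)

/-- configurations of `N` particles in `ℝ^d`: `x (i, α)` is the coordinate `α` of the particle `i` -/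
abbrev Conf (N d : ℕ) : Type := EuclideanSpace ℝ (Fin N × Fin d)

/-- `ρ` is a log-concave density on the space of configurations of `N` particles in `ℝ^d` which does
not change when the particles are permuted within their species; `b i` is the species of the
particle `i`. -/
structure SpeciesDensity {N d q : ℕ} (b : Fin N → Fin q) (ρ : Conf N d → ℝ) : Prop where
  nonneg : ∀ x, 0 ≤ ρ x
  meas : Measurable ρ
  logc : ∀ x y, ∀ t : ℝ, 0 < t → t < 1 → ρ x ^ (1 - t) * ρ y ^ t ≤ ρ ((1 - t) • x + t • y)
  inv : ∀ σ : Equiv.Perm (Fin N), (∀ i, b (σ i) = b i) → ∀ x y : Conf N d,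
    (∀ i α, y (i, α) = x (σ i, α)) → ρ y = ρ x

/-- `Var ⟪x, θ⟫ ≤ s` for all unit vectors `θ`: the covariance matrix of `μ` has norm at most `s`. -/
def CovLe {k : ℕ} (μ : Measure (Euc k)) (s : ℝ) : Prop :=
  ∀ θ : Euc k, ‖θ‖ = 1 → ProbabilityTheory.variance (fun x => ⟪x, θ⟫_ℝ) μ ≤ s

/-- KLS in variance form with constant `C`: if the covariance matrix of `μ` has norm at most `s` then
every `C¹` function with `‖∇ f‖ ≤ 1` is square integrable and has variance at most `C s`. -/
def KLSVar {k : ℕ} (C : ℝ) (μ : Measure (Euc k)) : Prop :=
  ∀ s : ℝ, 0 < s → CovLe μ s → ∀ f : Euc k → ℝ, ContDiff ℝ 1 f → (∀ y, ‖fderiv ℝ f y‖ ≤ 1) →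
    MemLp f 2 μ ∧ ProbabilityTheory.variance f μ ≤ C * s

/-- KLS in variance form, with the constant `C q d⁴ (1 + log q)²`, for the laws of all linear images
`L X` of all systems `X` of `N` particles in `ℝ^d` of `q` species with a log-concave density invariant
under the permutations preserving the species -/
def AllMarginals (C : ℝ) : Prop :=
  ∀ N d q : ℕ, 1 ≤ d → 1 ≤ q → ∀ b : Fin N → Fin q, Function.Surjective b →
  ∀ ρ : Conf N d → ℝ, SpeciesDensity b ρ →
  IsProbabilityMeasure (volume.withDensity fun x => ENNReal.ofReal (ρ x)) →
  ∀ (k : ℕ) (L : Conf N d →ₗ[ℝ] Euc k) (μ : Measure (Euc k)),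
  μ = Measure.map L (volume.withDensity fun x => ENNReal.ofReal (ρ x)) →
  IsProbabilityMeasure μ ∧ KLSVar (C * (q * (d : ℝ) ^ 4 * (1 + Real.log q) ^ 2)) μ

/-- **KLS for all linear images of systems of indistinguishable particles.** There is an absolute
constant `C` such that for all `N`, `d, q ≥ 1`, every map `b` of the `N` particles onto the `q`
species, every log-concave probability density `ρ` on the configurations of `N` particles in `ℝ^d`
which is invariant under the permutations preserving the species, every `k` and every linear map `L`
of the space of configurations to `ℝ^k`, the law of `L X`, where `X` has density `ρ`, satisfies KLS in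
variance form with the constant `C q d⁴ (1 + log q)²`. -/
theorem result : ∃ C : ℝ, 0 < C ∧ AllMarginals C := by
  obtain ⟨C, hC, HKL⟩ := Pool.Agent.Q155.IB.kl2_part
  refine ⟨C, hC, fun N d q hd hq b hb ρ hρ hprob k L μ hμ => ?_⟩
  have hG : Pool.Agent.TH594.KP.GD (Pool.Agent.TH594.KP.GG (Fin d) b) ρ :=
    Pool.Agent.TH594.KP.gd_of hρ.nonneg hρ.meas hρ.logc fun k l hkl x =>
      hρ.inv (Equiv.swap k l) (Pool.Agent.TH594.KP.swap_fix hkl) x _ fun i α =>
        Pool.Agent.TH594.KP.swp_apply k l x (i, α)
  obtain ⟨h1, h2⟩ := Pool.Agent.Q155.IB.law_kl _ (HKL N d q b hb hd hq) ρ hG hprob.measure_univ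
    L μ hμ
  exact ⟨h1, fun s hs hcov f hf hL => h2 s hs hcov f hf hL⟩

end Pool.Agent.Results.MP_6d896a_gt.MarginalsOfParticleMeasures
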