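import Pool.Agent.Q155.IB.Law
import Pool.Agent.Q155.IB.Large

/-!
# KLS for all linear images of log-concave measures with tree or matrix symmetries

The Kannan-Lovasz-Simonovits inequality for the laws of ALL linear images `L X`, `L` linear to `ℝⁿ`, in
any dimension `n`, of random vectors `X` with a log-concave density which is invariant under a large
group of one of three kinds:

(a) `Tree Λ`: `X` is a function on the leaves of a rooted tree of depth `k ≤ Λ` (`m_j` children at level
`j`), `∏_j (1 + log (m_0 ⋯ m_{j-1}) / m_j)² ≤ Λ`, invariance under the automorphisms of the tree;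

(b) `Rotations Λ`: `X` is a tuple of `q` real `N × N` matrices and `m` vectors (or takes values in a
rotation invariant subspace), `q + m ≤ Λ`, `N ≥ 3` arbitrary, invariance under `X_j ↦ g X_j gᵀ`,
`v_i ↦ g v_i`, `g ∈ SO(N)`;

(c) `Conjugations Λ`: `X` is a tuple of `q ≤ Λ` real symmetric or complex Hermitian `N × N` matrices,
`N ≥ 3` arbitrary, invariance under simultaneous conjugation.

Variance form (equivalent to KLS by E. Milman): if all `Var ⟪θ, L X⟫`, `‖θ‖ = 1`, are at most `s` then
`Var f(L X) ≤ C s` for every `C¹` function `f` with `‖∇ f‖ ≤ 1`, where `C` depends only on `Λ`.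

New compared with `HierarchicallyExchangeable`, `TensorTuples`, `SimultaneousConjugation` (starting
files), which are the case `L = id`: for a general `L` the law of `L X` has no symmetry, and the norm of
its covariance matrix is not that of the covariance matrix of `X`. For instance all marginals of
unitarily invariant ensembles and the isotropic position of `X` are included.

Method. The covariance operator `Σ` of `X` is positive definite and commutes with the group; its square
root is a polynomial in `Σ` and commutes with the group too, so `Σ^{-1/2} X` is isotropic and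
invariant. The inequalities of the starting files for `Σ^{-1/2} X` are applied to `f ∘ L ∘ Σ^{1/2}`,
whose Lipschitz constant is at most `√s`.
-/

set_option autoImplicit false

namespace Pool.Agent.Results.MP_6d896a_gt.MarginalsTreeAndMatrixSymmetries

open MeasureTheory Set
open scoped ENNReal InnerProductSpace
open Pool.Agent.Q155.IB.Large (Tree Rotations Conjugations)

/-- Euclidean space of dimension `n` -/
abbrev Euc (n : ℕ) : Type := EuclideanSpace ℝ (Fin n)

/-- the three kinds of large groups, of complexity at most `Λ` -/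
def LargeGroup {κ : Type} [Fintype κ] (Λ : ℕ)
    (G : Set (EuclideanSpace ℝ κ ≃ₗᵢ[ℝ] EuclideanSpace ℝ κ)) : Prop :=
  Tree Λ G ∨ Rotations Λ G ∨ Conjugations Λ G

/-- log-concave probability density on `ℝ^κ`, invariant under the isometries in `G` -/
structure InvariantDensity {κ : Type} [Fintype κ]
    (G : Set (EuclideanSpace ℝ κ ≃ₗᵢ[ℝ] EuclideanSpace ℝ κ)) (ρ : EuclideanSpace ℝ κ → ℝ) :
    Prop where
  nonneg : ∀ x, 0 ≤ ρ x
  meas : Measurable ρ
  logc : ∀ x y, ∀ t : ℝ, 0 < t → t < 1 → ρ x ^ (1 - t) * ρ y ^ t ≤ ρ ((1 - t) • x + t • y)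
  prob : IsProbabilityMeasure (volume.withDensity fun x => ENNReal.ofReal (ρ x))
  inv : ∀ g ∈ G, ∀ x, ρ (g x) = ρ x

/-- `Var ⟪x, θ⟫ ≤ s` for all unit vectors `θ`: the covariance matrix of `μ` has norm at most `s`. -/
def CovLe {n : ℕ} (μ : Measure (Euc n)) (s : ℝ) : Prop :=
  ∀ θ : Euc n, ‖θ‖ = 1 → ProbabilityTheory.variance (fun x => ⟪x, θ⟫_ℝ) μ ≤ s

/-- KLS in variance form with constant `C`: if the covariance matrix of `μ` has norm at most `s` then
every `C¹` function with `‖∇ f‖ ≤ 1` is square integrable and has variance at most `C s`. -/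
def KLSVar {n : ℕ} (C : ℝ) (μ : Measure (Euc n)) : Prop :=
  ∀ s : ℝ, 0 < s → CovLe μ s → ∀ f : Euc n → ℝ, ContDiff ℝ 1 f → (∀ y, ‖fderiv ℝ f y‖ ≤ 1) →
    MemLp f 2 μ ∧ ProbabilityTheory.variance f μ ≤ C * s

/-- the variance inequality of the starting modules for the three kinds of groups -/
theorem kl_large (Λ : ℕ) : ∃ C : ℝ, 0 < C ∧ ∀ (κ : Type) [Fintype κ]
    (G : Set (EuclideanSpace ℝ κ ≃ₗᵢ[ℝ] EuclideanSpace ℝ κ)), LargeGroup Λ G →
    Pool.Agent.Q155.IB.KL2 G C := by
  obtain ⟨C₁, hC₁, H₁⟩ := Pool.Agent.Q155.IB.Large.kl_tree Λ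
  obtain ⟨C₂, hC₂, H₂⟩ := Pool.Agent.Q155.IB.Large.kl_rot Λ
  obtain ⟨C₃, hC₃, H₃⟩ := Pool.Agent.Q155.IB.Large.kl_conj Λ
  refine ⟨C₁ + C₂ + C₃, by positivity, fun κ _ G hG => ?_⟩
  rcases hG with h | h | h
  · exact (H₁ κ G h).mono (by linarith)
  · exact (H₂ κ G h).mono (by linarith)
  · exact (H₃ κ G h).mono (by linarith)

/-- **KLS for all linear images of log-concave measures with tree or matrix symmetries.** For every
`Λ` there is a constant `C` such that for every log-concave probability density `ρ` on a Euclidean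
space, invariant under a large group of complexity at most `Λ`, the laws of all linear images of the
measure with density `ρ`, in any dimension, satisfy KLS in variance form with the constant `C`. -/
theorem result : ∀ Λ : ℕ, ∃ C : ℝ, 0 < C ∧ ∀ (κ : Type) [Fintype κ]
    (G : Set (EuclideanSpace ℝ κ ≃ₗᵢ[ℝ] EuclideanSpace ℝ κ)), LargeGroup Λ G →
    ∀ ρ : EuclideanSpace ℝ κ → ℝ, InvariantDensity G ρ →
    ∀ (n : ℕ) (L : EuclideanSpace ℝ κ →ₗ[ℝ] Euc n) (μ : Measure (Euc n)),
    μ = Measure.map L (volume.withDensity fun x => ENNReal.ofReal (ρ x)) →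
    IsProbabilityMeasure μ ∧ KLSVar C μ := by
  intro Λ
  obtain ⟨C, hC, HKL⟩ := kl_large Λ
  refine ⟨C, hC, fun κ _ G hG ρ hρ n L μ hμ => ?_⟩
  have hprob := hρ.prob
  obtain ⟨h1, h2⟩ := Pool.Agent.Q155.IB.law_kl G (HKL κ G hG) ρ
    ⟨hρ.nonneg, hρ.meas, hρ.logc, hρ.inv⟩ hprob.measure_univ L μ hμ
  exact ⟨h1, fun s hs hcov f hf hL => h2 s hs hcov f hf hL⟩

end Pool.Agent.Results.MP_6d896a_gt.MarginalsTreeAndMatrixSymmetries
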