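import Pool.Agent.Q197.RG.Img

/-!
# KLS for log-concave measures invariant under finite reflection groups

The Kannan-Lovasz-Simonovits inequality, in the equivalent (E. Milman) form of a variance bound for
Lipschitz functions, for all log-concave probability measures on `ℝ^κ` invariant under a finite
reflection group `W` all of whose irreducible components are of type `A` or `D` (a group of type `B`
contains the group of type `D`; by the classification all irreducible finite reflection groups of rank
at least 9 are of type `A`, `B` or `D`). If the group has `N` components, each generated by the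
exchanges of at least `m` vectors, and `F` is the space of the fixed vectors, `q = dim F`, the
constant is `C D (1 + log N / m)²`, where `D = q + 1` or `D` is the KLS constant of the dimension `q`.
In particular the constant is absolute for all groups without fixed vectors the number of whose
components is at most exponential in their dimensions, e.g. for irreducible groups. In general the
symmetric directions cost only the factor `(1 + log N / m)²`: the inequality for `W` in all
dimensions is reduced to the KLS inequality in the dimension `q` of the space of the fixed vectors.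

The same is true for the laws of all linear images `L X` (all marginals, the isotropic position) of
such random vectors `X`, which need not have any symmetry, with `s` the norm of the covariance matrix
of `L X`, by the starting library `Pool.Agent.Q155.IB` of this repository: the square root of the
covariance operator commutes with the group.

The groups of type `A` with `n` factors acting on `ℝ^{m_1 + ⋯ + m_n}` by permutations inside blocks
(`q = n`) are those of `Pool.Agent.Results.MP_6d896a_gt.Particles` (starting files, particles on the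
line) with a constant polynomial in `n`, and for `n = 1`, `q = 1` of
`Pool.Agent.Results.MP_6d896a_gt.Exchangeable` (starting files).

Method. `ℝ^κ × ℝ^n` is isometric to a space of arrays in which `W` permutes coordinates and changes
pairs of signs in the blocks of type `D`. On a level set of the block sums of distances (type `A`) or
of absolute values (type `D`) the density satisfies, after a Gaussian tilt in the directions of `F`, a
local Poincare inequality: symmetric functions by a discrete Bochner inequality through the Gaussian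
channel (module `RG.Bo`), functions odd under an exchange by the Hardy inequality
`Pool.Agent.TH368.hardy0` of the starting files, functions odd under a change of two signs by splitting
once more and conjugating (`RG.In`), all functions by even and odd parts (`RG.Sp`). The tilt is removed
by the KLS inequality in dimension `q` for the law of its centre (`RG.Unt`). The level sets have
exponential tails with the rate `m` (`Pool.Agent.TH148.HX.tail0`, `RG.Tail`), which gives `log N / m`.
-/

set_option autoImplicit false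

namespace Pool.Agent.Results.MP_6d896a_gt.ReflectionGroups

open MeasureTheory Set
open scoped ENNReal InnerProductSpace

variable {κ ι ν : Type} [Fintype κ] [Fintype ι] [DecidableEq ι] [Fintype ν] [DecidableEq ν] {n r : ℕ}

/-- the number of the indices `i` with `b i = j` -/
def size {ι : Type} [Fintype ι] {n : ℕ} (b : ι → Fin n) (j : Fin n) : ℕ :=
  (Finset.univ.filter fun i => b i = j).card

/-- The data of a reflection group with components of types `A` and `D`. For each `j : Fin n` the
vectors `u i`, `b i = j`, are the vertices of a regular simplex centred at the origin of a subspace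
`E_j` of `ℝ^κ`, `dim E_j = size b j - 1`; for each `j : Fin r` the vectors `v i`, `d i = j`, are an
orthonormal basis of a subspace `E'_j`, `dim E'_j = size d j`; all these spaces are mutually
orthogonal. -/
structure Roots (b : ι → Fin n) (u : ι → EuclideanSpace ℝ κ) (d : ν → Fin r)
    (v : ν → EuclideanSpace ℝ κ) : Prop where
  surj : Function.Surjective b
  surj' : Function.Surjective d
  gram : ∀ i j, ⟪u i, u j⟫_ℝ =
    (if i = j then 1 else 0) - (if b i = b j then 1 / (size b (b i) : ℝ) else 0)
  orth : ∀ i j, ⟪v i, v j⟫_ℝ = if i = j then 1 else 0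
  perp : ∀ i j, ⟪u i, v j⟫_ℝ = 0

/-- the dimension `q` of the space `F` of the vectors fixed by the group -/
noncomputable def fixedDim (u : ι → EuclideanSpace ℝ κ) (v : ν → EuclideanSpace ℝ κ) : ℕ :=
  Module.finrank ℝ ((Submodule.span ℝ (range u ∪ range v))ᗮ : Submodule ℝ (EuclideanSpace ℝ κ))

/-- `ρ` is a log-concave density on `ℝ^κ` invariant under the reflections of the group: the
exchanges of two vertices `u i`, `u j` of one of the simplices, the exchanges of two vectors `v i`,
`v j` of one of the orthonormal bases, the exchanges of `v i` and `-v j`. -/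
structure Density (b : ι → Fin n) (u : ι → EuclideanSpace ℝ κ) (d : ν → Fin r)
    (v : ν → EuclideanSpace ℝ κ) (ρ : EuclideanSpace ℝ κ → ℝ) : Prop where
  nonneg : ∀ x, 0 ≤ ρ x
  meas : Measurable ρ
  logc : ∀ x y, ∀ t : ℝ, 0 < t → t < 1 → ρ x ^ (1 - t) * ρ y ^ t ≤ ρ ((1 - t) • x + t • y)
  inv : ∀ i j, b i = b j → ∀ x, ρ (x - ⟪u i - u j, x⟫_ℝ • (u i - u j)) = ρ x
  inv_sub : ∀ i j, d i = d j → ∀ x, ρ (x - ⟪v i - v j, x⟫_ℝ • (v i - v j)) = ρ x
  inv_add : ∀ i j, i ≠ j → d i = d j → ∀ x, ρ (x - ⟪v i + v j, x⟫_ℝ • (v i + v j)) = ρ x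

/-- `Var ⟪θ, X⟫ ≤ s ‖θ‖²` for all `θ`: the covariance matrix of `μ` has norm at most `s`. -/
def CovLe {κ : Type} [Fintype κ] (μ : Measure (EuclideanSpace ℝ κ)) (s : ℝ) : Prop :=
  ∀ θ : EuclideanSpace ℝ κ,
    ProbabilityTheory.evariance (fun x => ⟪θ, x⟫_ℝ) μ ≤ ENNReal.ofReal (s * ‖θ‖ ^ 2)

/-- `D` is a KLS constant in dimension `q`: `Var f ≤ D s E ‖∇ f‖²` for all `C¹` functions `f` and all
log-concave probability densities `ρ` on `ℝ^q` with bounded support whose covariance matrix has norm
at most `s`. -/
def KLSConst (q : ℕ) (D : ℝ) : Prop :=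
  ∀ ρ : EuclideanSpace ℝ (Fin q) → ℝ, (∀ x, 0 ≤ ρ x) → Measurable ρ →
    (∀ x y, ∀ t : ℝ, 0 < t → t < 1 → ρ x ^ (1 - t) * ρ y ^ t ≤ ρ ((1 - t) • x + t • y)) →
    (∃ R : ℝ, ∀ x, R < ‖x‖ → ρ x = 0) → ∀ μ : Measure (EuclideanSpace ℝ (Fin q)),
    μ = volume.withDensity (fun x => ENNReal.ofReal (ρ x)) → IsProbabilityMeasure μ →
    ∀ s : ℝ, 0 < s → CovLe μ s → ∀ f : EuclideanSpace ℝ (Fin q) → ℝ, ContDiff ℝ 1 f →
    ProbabilityTheory.variance f μ ≤ D * s * ∫ x, ‖fderiv ℝ f x‖ ^ 2 ∂μ

/-- `D ≥ 1` is at least `q + 1` or a KLS constant in dimension `q` -/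
def Admissible (q : ℕ) (D : ℝ) : Prop := 1 ≤ D ∧ ((q : ℝ) + 1 ≤ D ∨ KLSConst q D)

theorem ad_of {q : ℕ} {D : ℝ} (h : Admissible q D) : Pool.Agent.Q197.RG.AD q D :=
  ⟨h.1, h.2.imp id fun h2 => Pool.Agent.Q197.RG.kpo_of h2⟩

/-- the factor `D (1 + log N / m)²` -/
noncomputable def factor (D : ℝ) (N m : ℕ) : ℝ := D * (1 + Real.log N / m) ^ 2

/-- KLS in variance form with the constant `A` for a law `μ` on `ℝ^k`: if the covariance matrix of `μ`
has norm at most `s` then every `C¹` function with `‖∇ f‖ ≤ 1` is square integrable and has variance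
at most `A s`. -/
def KLSVar {k : ℕ} (A : ℝ) (μ : Measure (EuclideanSpace ℝ (Fin k))) : Prop :=
  ∀ s : ℝ, 0 < s →
    (∀ θ : EuclideanSpace ℝ (Fin k), ‖θ‖ = 1 →
      ProbabilityTheory.variance (fun x => ⟪x, θ⟫_ℝ) μ ≤ s) →
    ∀ f : EuclideanSpace ℝ (Fin k) → ℝ, ContDiff ℝ 1 f → (∀ y, ‖fderiv ℝ f y‖ ≤ 1) →
    MemLp f 2 μ ∧ ProbabilityTheory.variance f μ ≤ A * s

/-- **KLS for finite reflection groups.** There is an absolute constant `C` such that for all systems
of `n` mutually orthogonal regular simplices (type `A`) and `r` finite orthonormal systems (type `D`),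
`n + r ≥ 1`, with at least `m ≥ 2` vectors each, and every random vector `X` in `ℝ^κ` whose law `μ` has
a log-concave density invariant under the corresponding reflections, with
`A = C D (1 + log (n + r) / m)²`:

* for all `k` and all linear maps `L` of `ℝ^κ` to `ℝ^k` the law of `L X` satisfies KLS in variance form
  with the constant `A`: if its covariance matrix has norm at most `s` then every `C¹` function with
  `‖∇ f‖ ≤ 1` has variance at most `A s`;
* if the covariance matrix of `X` has norm at most `s` then every `C¹` function `f` on `ℝ^κ` with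
  `‖∇ f‖ ≤ 1` has variance at most `A s`, and every `C¹` function with `|f| ≤ 1` satisfies
  `(Var f)² ≤ A s E ‖∇ f‖²`.

Here `q` is the dimension of the space of the fixed vectors and `D = q + 1`, or any KLS constant
`D ≥ 1` of the dimension `q`. -/
theorem result : ∃ C : ℝ, 0 < C ∧ ∀ (κ ι ν : Type) [Fintype κ] [Fintype ι] [DecidableEq ι]
    [Fintype ν] [DecidableEq ν] (n r m : ℕ), 1 ≤ n + r → 2 ≤ m →
    ∀ (b : ι → Fin n) (u : ι → EuclideanSpace ℝ κ) (d : ν → Fin r) (v : ν → EuclideanSpace ℝ κ),
    Roots b u d v → (∀ j, m ≤ size b j) → (∀ j, m ≤ size d j) →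
    ∀ D : ℝ, Admissible (fixedDim u v) D →
    ∀ ρ : EuclideanSpace ℝ κ → ℝ, Density b u d v ρ →
    ∀ μ : Measure (EuclideanSpace ℝ κ),
    μ = volume.withDensity (fun x => ENNReal.ofReal (ρ x)) → IsProbabilityMeasure μ →
    (∀ (k : ℕ) (L : EuclideanSpace ℝ κ →ₗ[ℝ] EuclideanSpace ℝ (Fin k)),
      KLSVar (C * factor D (n + r) m) (μ.map L)) ∧
    ∀ s : ℝ, 0 < s → CovLe μ s → ∀ f : EuclideanSpace ℝ κ → ℝ, ContDiff ℝ 1 f →
    ((∀ x, ‖fderiv ℝ f x‖ ≤ 1) → MemLp f 2 μ ∧
      ProbabilityTheory.variance f μ ≤ C * factor D (n + r) m * s) ∧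
    ((∀ x, |f x| ≤ 1) → ENNReal.ofReal (ProbabilityTheory.variance f μ ^ 2) ≤
      ENNReal.ofReal (C * factor D (n + r) m * s) *
        ∫⁻ x, ENNReal.ofReal (‖fderiv ℝ f x‖ ^ 2) ∂μ) := by
  obtain ⟨C₁, hC₁, H₁⟩ := Pool.Agent.Q197.RG.scf
  obtain ⟨C₂, hC₂, H₂⟩ := Pool.Agent.Q197.RG.kl2
  refine ⟨8 * C₁ + C₂, by positivity, ?_⟩
  intro κ ι ν _ _ _ _ _ n r m hN hm b u d v h hb hd D hD ρ hρ μ hμ hprob
  subst hμ
  have hfac : 0 < factor D (n + r) m := Pool.Agent.Q197.RG.fac_pos hD.1 (n + r) m
  have hG := Pool.Agent.Q197.RG.gd_of hρ.nonneg hρ.meas hρ.logc hρ.inv hρ.inv_sub hρ.inv_add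
  refine ⟨?_, ?_⟩
  · intro k L s hs hcov f hf hL
    obtain ⟨-, h2⟩ := Pool.Agent.Q155.IB.law_kl _
      (H₂ h.surj h.surj' ⟨⟨h.gram⟩, h.orth, h.perp⟩ hN hm hb hd D (ad_of hD)) ρ hG
      hprob.measure_univ L _ rfl
    obtain ⟨h3, h4⟩ := h2 s hs hcov f hf hL
    refine ⟨h3, h4.trans ?_⟩
    have e : Pool.Agent.Q197.RG.fac D (n + r) m = factor D (n + r) m := rfl
    rw [e]
    have : 0 ≤ 8 * C₁ * factor D (n + r) m * s := by positivity
    nlinarith
  · intro s hs hcov f hf
    have key := Pool.Agent.TH594.KP.full (mul_pos hC₁ (Pool.Agent.Q197.RG.fac_pos hD.1 _ m))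
      (H₁ h.surj h.surj' ⟨⟨h.gram⟩, h.orth, h.perp⟩ hN hm hb hd D (ad_of hD)) ρ hG
      hprob.measure_univ s hs hcov f hf
    have e : 8 * (C₁ * Pool.Agent.Q197.RG.fac D (n + r) m) * s ≤
        (8 * C₁ + C₂) * factor D (n + r) m * s := by
      have e1 : Pool.Agent.Q197.RG.fac D (n + r) m = factor D (n + r) m := rfl
      rw [e1]
      have : 0 ≤ C₂ * factor D (n + r) m * s := by positivity
      nlinarith
    refine ⟨fun hf1 => ?_, fun hf1 => ?_⟩
    · obtain ⟨k1, k2⟩ := key.1 hf1
      exact ⟨k1, k2.trans e⟩
    · exact (key.2 hf1).trans (mul_le_mul_left (ENNReal.ofReal_le_ofReal e) _)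

end Pool.Agent.Results.MP_6d896a_gt.ReflectionGroups
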